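import Mathlib

/-! Combinators for computable functions and binary strings (copied from the start file
`Results/MP_b38472_lc/NoConvergence`). -/

set_option autoImplicit false

namespace Pool.Agent.H285Z.SC

/-- The initial segment of length `n` of an infinite sequence. -/
def seg {α : Type} (X : ℕ → α) (n : ℕ) : List α := (List.range n).map X

/-! ### Combinators for computable functions -/

/-- bounded universal quantifier -/
def ball (n : ℕ) (q : ℕ → Bool) : Bool :=
  Nat.rec (motive := fun _ => Bool) true (fun k acc => acc && q k) n

theorem ball_iff (n : ℕ) (q : ℕ → Bool) : ball n q = true ↔ ∀ k < n, q k = true := by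
  induction n with
  | zero => simp [ball]
  | succ n ih =>
    have : ball (n + 1) q = (ball n q && q n) := rfl
    rw [this, Bool.and_eq_true, ih]
    constructor
    · rintro ⟨h1, h2⟩ k hk
      rcases Nat.lt_succ_iff_lt_or_eq.1 hk with h | h
      · exact h1 k h
      · exact h ▸ h2
    · intro h
      exact ⟨fun k hk => h k (Nat.lt_succ_of_lt hk), h n (Nat.lt_succ_self n)⟩

/-- bounded existential quantifier -/
def bex (n : ℕ) (q : ℕ → Bool) : Bool := !(ball n fun k => !(q k))

theorem bex_iff (n : ℕ) (q : ℕ → Bool) : bex n q = true ↔ ∃ k < n, q k = true := by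
  unfold bex
  rw [Bool.not_eq_true', ← Bool.not_eq_true, ball_iff]
  push Not
  simp

/-- finite sum of natural numbers -/
def nsum (n : ℕ) (q : ℕ → ℕ) : ℕ :=
  Nat.rec (motive := fun _ => ℕ) 0 (fun k acc => acc + q k) n

theorem nsum_eq (n : ℕ) (q : ℕ → ℕ) : nsum n q = ∑ k ∈ Finset.range n, q k := by
  induction n with
  | zero => rfl
  | succ n ih => rw [Finset.sum_range_succ, ← ih]; rfl

/-- powers of two, by recursion -/
def pw (n : ℕ) : ℕ := Nat.rec (motive := fun _ => ℕ) 1 (fun _ r => 2 * r) n

theorem pw_eq (n : ℕ) : pw n = 2 ^ n := by
  induction n with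
  | zero => rfl
  | succ n ih =>
    have : pw (n + 1) = 2 * pw n := rfl
    rw [this, ih, pow_succ, Nat.mul_comm]

section combinators

variable {α : Type} [Primcodable α]

theorem ball_comp {g : α → ℕ} {q : α → ℕ → Bool}
    (hg : Computable g) (hq : Computable₂ q) : Computable fun a => ball (g a) (q a) := by
  have h1 : Computable fun p : α × ℕ × Bool => p.2.2 := Computable.snd.comp Computable.snd
  have h2 : Computable fun p : α × ℕ × Bool => q p.1 p.2.1 :=
    hq.comp Computable.fst (Computable.fst.comp Computable.snd)
  have h3 : Computable₂ fun (a : α) (p : ℕ × Bool) => p.2 && q a p.1 :=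
    (Primrec.and.to_comp.comp h1 h2).to₂
  exact (Computable.nat_rec hg (Computable.const true) h3).of_eq fun a => rfl

theorem nsum_comp {g : α → ℕ} {q : α → ℕ → ℕ}
    (hg : Computable g) (hq : Computable₂ q) : Computable fun a => nsum (g a) (q a) := by
  have h1 : Computable fun p : α × ℕ × ℕ => p.2.2 := Computable.snd.comp Computable.snd
  have h2 : Computable fun p : α × ℕ × ℕ => q p.1 p.2.1 :=
    hq.comp Computable.fst (Computable.fst.comp Computable.snd)
  have h3 : Computable₂ fun (a : α) (p : ℕ × ℕ) => p.2 + q a p.1 :=
    (Primrec.nat_add.to_comp.comp h1 h2).to₂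
  exact (Computable.nat_rec hg (Computable.const 0) h3).of_eq fun a => rfl

theorem search {q : α → ℕ → Bool} (hq : Computable₂ q)
    (H : ∀ a, ∃ n, q a n = true) : ∃ F : α → ℕ, Computable F ∧ ∀ a, q a (F a) = true := by
  classical
  have hP : ComputablePred (fun p : α × ℕ => q p.1 p.2 = true) :=
    Computable.computablePred (by
      have : Computable fun p : α × ℕ => q p.1 p.2 := hq
      simpa using this)
  exact ⟨_, Computable.find (P := fun a n => q a n = true) hP H, fun a => Nat.find_spec (H a)⟩

theorem cand {f g : α → Bool} (hf : Computable f) (hg : Computable g) :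
    Computable fun a => f a && g a := Primrec.and.to_comp.comp hf hg

theorem cor {f g : α → Bool} (hf : Computable f) (hg : Computable g) :
    Computable fun a => f a || g a := Primrec.or.to_comp.comp hf hg

theorem cnot {f : α → Bool} (hf : Computable f) : Computable fun a => !(f a) :=
  Primrec.not.to_comp.comp hf

theorem bex_comp {g : α → ℕ} {q : α → ℕ → Bool}
    (hg : Computable g) (hq : Computable₂ q) : Computable fun a => bex (g a) (q a) :=
  cnot (ball_comp hg (cnot (show Computable fun p : α × ℕ => q p.1 p.2 from hq)).to₂)

theorem ceqN {f g : α → ℕ} (hf : Computable f) (hg : Computable g) :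
    Computable fun a => decide (f a = g a) := by
  have : Primrec₂ fun m n : ℕ => decide (m = n) := Primrec.eq.decide
  exact this.to_comp.comp hf hg

theorem ceqL {f g : α → List Bool} (hf : Computable f) (hg : Computable g) :
    Computable fun a => decide (f a = g a) := by
  have : Primrec₂ fun m n : List Bool => decide (m = n) := Primrec.eq.decide
  exact this.to_comp.comp hf hg

theorem clt {f g : α → ℕ} (hf : Computable f) (hg : Computable g) :
    Computable fun a => decide (f a < g a) := by
  have : Primrec₂ fun m n : ℕ => decide (m < n) := Primrec.nat_lt.decide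
  exact this.to_comp.comp hf hg

theorem cle {f g : α → ℕ} (hf : Computable f) (hg : Computable g) :
    Computable fun a => decide (f a ≤ g a) := by
  have : Primrec₂ fun m n : ℕ => decide (m ≤ n) := Primrec.nat_le.decide
  exact this.to_comp.comp hf hg

theorem cadd {f g : α → ℕ} (hf : Computable f) (hg : Computable g) :
    Computable fun a => f a + g a := Primrec.nat_add.to_comp.comp hf hg

theorem csub {f g : α → ℕ} (hf : Computable f) (hg : Computable g) :
    Computable fun a => f a - g a := Primrec.nat_sub.to_comp.comp hf hg

theorem cmul {f g : α → ℕ} (hf : Computable f) (hg : Computable g) :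
    Computable fun a => f a * g a := Primrec.nat_mul.to_comp.comp hf hg

theorem cdiv {f g : α → ℕ} (hf : Computable f) (hg : Computable g) :
    Computable fun a => f a / g a := Primrec.nat_div.to_comp.comp hf hg

theorem cmod {f g : α → ℕ} (hf : Computable f) (hg : Computable g) :
    Computable fun a => f a % g a := Primrec.nat_mod.to_comp.comp hf hg

theorem cpw {f : α → ℕ} (hf : Computable f) : Computable fun a => 2 ^ f a := by
  have h1 : Computable₂ fun (_ : ℕ) (p : ℕ × ℕ) => 2 * p.2 :=
    (Primrec.nat_mul.to_comp.comp (Computable.const 2) (Computable.snd.comp Computable.snd)).to₂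
  have h2 : Computable pw :=
    (Computable.nat_rec Computable.id (Computable.const 1) h1).of_eq fun a => rfl
  exact (h2.comp hf).of_eq fun a => pw_eq (f a)

theorem cite {β : Type} [Primcodable β] {c : α → Bool} {f g : α → β} (hc : Computable c)
    (hf : Computable f) (hg : Computable g) : Computable fun a => bif c a then f a else g a :=
  Computable.cond hc hf hg

theorem clen {f : α → List Bool} (hf : Computable f) : Computable fun a => (f a).length :=
  Computable.list_length.comp hf

theorem cappend {f g : α → List Bool} (hf : Computable f) (hg : Computable g) :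
    Computable fun a => f a ++ g a := Primrec.list_append.to_comp.comp hf hg

theorem ctake {f : α → List Bool} {n : α → ℕ} (hf : Computable f) (hn : Computable n) :
    Computable fun a => (f a).take (n a) := Primrec.list_take.to_comp.comp hn hf

theorem cdrop {f : α → List Bool} {n : α → ℕ} (hf : Computable f) (hn : Computable n) :
    Computable fun a => (f a).drop (n a) := Primrec.list_drop.to_comp.comp hn hf

end combinators

/-! ### Strings -/

theorem seg_length {α : Type} (X : ℕ → α) (n : ℕ) : (seg X n).length = n := by simp [seg]

theorem seg_succ {α : Type} (X : ℕ → α) (n : ℕ) : seg X (n + 1) = seg X n ++ [X n] := by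
  simp [seg, List.range_succ]

theorem seg_get {α : Type} (X : ℕ → α) {n k : ℕ} (h : k < n) : (seg X n)[k]? = some (X k) := by
  simp [seg, h]

theorem seg_mono {α : Type} (X : ℕ → α) {m n : ℕ} (h : m ≤ n) : seg X m <+: seg X n := by
  induction n with
  | zero => rw [Nat.le_zero.1 h]
  | succ n ih =>
    rcases Nat.lt_or_eq_of_le h with h' | rfl
    · rw [seg_succ]
      exact (ih (Nat.lt_succ_iff.1 h')).trans (List.prefix_append _ _)
    · exact List.prefix_rfl

theorem seg_take {α : Type} (X : ℕ → α) {m n : ℕ} (h : m ≤ n) : (seg X n).take m = seg X m := by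
  have := List.prefix_iff_eq_take.1 (seg_mono X h)
  rw [seg_length] at this
  exact this.symm

theorem seg_comp {α β : Type} [Primcodable α] [Primcodable β] {f : α → ℕ → β} {n : α → ℕ}
    (hf : Computable₂ f) (hn : Computable n) : Computable fun a => seg (f a) (n a) := by
  have h1 : Computable₂ fun (a : α) (p : ℕ × List β) => p.2 ++ [f a p.1] := by
    have h0 : Computable fun q : α × ℕ × List β => q.2.2 := Computable.snd.comp Computable.snd
    have h2 : Computable fun q : α × ℕ × List β => f q.1 q.2.1 :=
      hf.comp Computable.fst (Computable.fst.comp Computable.snd)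
    exact (Primrec.list_concat.to_comp.comp h0 h2).to₂
  refine (Computable.nat_rec hn (Computable.const []) h1).of_eq fun a => ?_
  induction n a with
  | zero => rfl
  | succ m ih => rw [seg_succ, ← ih]

/-- the string of length `n` which is the binary expansion of `i` (most significant bit first) -/
def bits (n i : ℕ) : List Bool := seg (fun k => decide (i / 2 ^ (n - 1 - k) % 2 = 1)) n

theorem bits_length (n i : ℕ) : (bits n i).length = n := seg_length _ _

theorem bits_zero (i : ℕ) : bits 0 i = [] := rfl

theorem bits_succ (n i : ℕ) : bits (n + 1) i = bits n (i / 2) ++ [decide (i % 2 = 1)] := by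
  unfold bits
  rw [seg_succ]
  have e : n + 1 - 1 - n = 0 := by omega
  rw [e, pow_zero, Nat.div_one]
  congr 1
  unfold seg
  apply List.map_congr_left
  intro k hk
  have hk' := List.mem_range.1 hk
  have e2 : n + 1 - 1 - k = (n - 1 - k) + 1 := by omega
  show decide (i / 2 ^ (n + 1 - 1 - k) % 2 = 1) = decide (i / 2 / 2 ^ (n - 1 - k) % 2 = 1)
  rw [e2, pow_succ', Nat.div_div_eq_div_mul]

theorem bits_comp {α : Type} [Primcodable α] {n i : α → ℕ} (hn : Computable n)
    (hi : Computable i) : Computable fun a => bits (n a) (i a) := by
  have h1 : Computable fun p : α × ℕ => decide (i p.1 / 2 ^ (n p.1 - 1 - p.2) % 2 = 1) :=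
    ceqN (cmod (cdiv (hi.comp Computable.fst) (cpw (csub (csub (hn.comp Computable.fst)
      (Computable.const 1)) Computable.snd))) (Computable.const 2)) (Computable.const 1)
  have h2 : Computable₂ fun (a : α) (k : ℕ) => decide (i a / 2 ^ (n a - 1 - k) % 2 = 1) := h1
  exact seg_comp h2 hn

theorem bits_append (n m i k : ℕ) (hk : k < 2 ^ m) :
    bits n i ++ bits m k = bits (n + m) (i * 2 ^ m + k) := by
  induction m generalizing k with
  | zero =>
    have : k = 0 := by simpa using hk
    subst this
    simp [bits_zero]
  | succ m ih =>
    rw [bits_succ, ← List.append_assoc, ih (k / 2) (by rw [pow_succ] at hk; omega)]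
    rw [show n + (m + 1) = (n + m) + 1 by ring, bits_succ]
    have e0 : i * 2 ^ (m + 1) = 2 * (i * 2 ^ m) := by ring
    have e1 : (i * 2 ^ (m + 1) + k) / 2 = i * 2 ^ m + k / 2 := by
      rw [e0]; omega
    have e2 : (i * 2 ^ (m + 1) + k) % 2 = k % 2 := by
      rw [e0]; omega
    rw [e1, e2]

theorem bits_take (n m i : ℕ) (h : m ≤ n) : (bits n i).take m = bits m (i / 2 ^ (n - m)) := by
  obtain ⟨c, rfl⟩ : ∃ c, n = m + c := ⟨n - m, by omega⟩
  have e : m + c - m = c := by omega
  rw [e]
  have h1 : i = i / 2 ^ c * 2 ^ c + i % 2 ^ c := by
    have := Nat.div_add_mod i (2 ^ c)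
    rw [mul_comm]; exact this.symm
  conv_lhs => rw [h1]
  rw [← bits_append m c _ _ (Nat.mod_lt _ (by positivity))]
  rw [List.take_left' (bits_length _ _)]

/-- the number whose binary expansion is the string -/
def val (σ : List Bool) : ℕ := σ.foldl (fun acc b => 2 * acc + (bif b then 1 else 0)) 0

theorem val_comp {α : Type} [Primcodable α] {f : α → List Bool} (hf : Computable f) :
    Computable fun a => val (f a) := by
  have h1 : Primrec val := by
    refine Primrec.list_foldl (f := fun σ : List Bool => σ) (g := fun _ => 0)
      (h := fun _ p => 2 * p.1 + (bif p.2 then 1 else 0)) Primrec.id (Primrec.const 0) ?_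
    refine Primrec₂.mk ?_
    refine Primrec.nat_add.comp (Primrec.nat_mul.comp (Primrec.const 2)
      (Primrec.fst.comp Primrec.snd)) ?_
    exact Primrec.cond (Primrec.snd.comp Primrec.snd) (Primrec.const 1) (Primrec.const 0)
  exact h1.to_comp.comp hf

theorem val_append (σ : List Bool) (b : Bool) :
    val (σ ++ [b]) = 2 * val σ + (bif b then 1 else 0) := by
  simp [val, List.foldl_append]

theorem val_lt (σ : List Bool) : val σ < 2 ^ σ.length := by
  induction σ using List.reverseRecOn with
  | nil => simp [val]
  | append_singleton σ b ih =>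
    rw [val_append, List.length_append, List.length_singleton, pow_succ]
    cases b <;> simp <;> omega

theorem bits_val (σ : List Bool) : bits σ.length (val σ) = σ := by
  induction σ using List.reverseRecOn with
  | nil => rfl
  | append_singleton σ b ih =>
    rw [List.length_append, List.length_singleton, bits_succ, val_append]
    have e1 : (2 * val σ + (bif b then 1 else 0)) / 2 = val σ := by cases b <;> simp <;> omega
    have e2 : decide ((2 * val σ + (bif b then 1 else 0)) % 2 = 1) = b := by
      cases b <;> simp <;> omega
    rw [e1, e2, ih]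

theorem val_bits (n i : ℕ) (h : i < 2 ^ n) : val (bits n i) = i := by
  induction n generalizing i with
  | zero =>
    have : i = 0 := by simpa using h
    subst this
    rfl
  | succ n ih =>
    rw [bits_succ, val_append, ih (i / 2) (by rw [pow_succ] at h; omega)]
    rcases Nat.mod_two_eq_zero_or_one i with h1 | h1 <;> simp [h1] <;> omega



end Pool.Agent.H285Z.SC
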