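import Pool.Agent.H285Z.SC.Comp

/-! For every weight on strings of a suitable length there are few forbidden blocks such that the
strings avoiding them have small weight. -/

set_option autoImplicit false

open Finset

namespace Pool.Agent.H285Z.SC

theorem greedy {α β : Type} [DecidableEq α] [DecidableEq β] (T : Finset β) (hT : T.Nonempty)
    (D : α → Finset β) (w : α → ℝ) (hw : ∀ a, 0 ≤ w a) (P : ℝ) (hP : 1 ≤ P) (S : ℕ) :
    ∀ Ω : Finset α, (∀ a ∈ Ω, D a ⊆ T ∧ (T.card : ℝ) ≤ P * (D a).card) →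
      ∃ A : List β, A.length = S ∧
        ∑ a ∈ Ω.filter (fun a => ∀ τ ∈ A, τ ∉ D a), w a ≤ (1 - 1 / P) ^ S * ∑ a ∈ Ω, w a := by
  have hP0 : 0 < P := by linarith
  have hq : 0 ≤ 1 - 1 / P := by
    rw [sub_nonneg, div_le_one hP0]; exact hP
  induction S with
  | zero => intro Ω _; exact ⟨[], rfl, by simp⟩
  | succ S ih =>
    intro Ω hΩ
    have hT0 : (0 : ℝ) < T.card := by exact_mod_cast hT.card_pos
    have h1 : ∑ τ ∈ T, ∑ a ∈ Ω.filter (fun a => τ ∈ D a), w a = ∑ a ∈ Ω, ((D a).card : ℝ) * w a := by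
      simp_rw [sum_filter]
      rw [sum_comm]
      refine sum_congr rfl fun a ha => ?_
      rw [← sum_filter, sum_const, nsmul_eq_mul]
      congr 3
      ext τ
      simp only [mem_filter]
      exact ⟨fun h => h.2, fun h => ⟨(hΩ a ha).1 h, h⟩⟩
    have h2 : ∑ _τ ∈ T, (1 / P * ∑ a ∈ Ω, w a) ≤ ∑ τ ∈ T, ∑ a ∈ Ω.filter (fun a => τ ∈ D a), w a := by
      rw [h1, sum_const, nsmul_eq_mul, ← mul_assoc, mul_sum]
      refine sum_le_sum fun a ha => mul_le_mul_of_nonneg_right ?_ (hw a)
      rw [mul_one_div, div_le_iff₀ hP0, mul_comm]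
      exact (hΩ a ha).2
    obtain ⟨τ, -, hτ⟩ := exists_le_of_sum_le hT h2
    obtain ⟨A, hA, hA'⟩ := ih (Ω.filter (fun a => τ ∉ D a)) (fun a ha => hΩ a (mem_filter.mp ha).1)
    refine ⟨τ :: A, by simp [hA], ?_⟩
    have e : Ω.filter (fun a => ∀ σ ∈ τ :: A, σ ∉ D a) =
        (Ω.filter (fun a => τ ∉ D a)).filter (fun a => ∀ σ ∈ A, σ ∉ D a) := by
      ext a; simp [and_assoc]
    rw [e]
    refine hA'.trans ?_
    have h3 := sum_filter_add_sum_filter_not Ω (fun a => τ ∈ D a) w
    rw [pow_succ, mul_assoc]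
    refine mul_le_mul_of_nonneg_left ?_ (pow_nonneg hq _)
    linarith

/-- all strings of length `n` -/
def allS (n : ℕ) : Finset (List Bool) := (range (2 ^ n)).image (bits n)

theorem mem_allS {n : ℕ} {σ : List Bool} : σ ∈ allS n ↔ σ.length = n := by
  unfold allS
  rw [mem_image]
  constructor
  · rintro ⟨i, -, rfl⟩; exact bits_length _ _
  · rintro rfl; exact ⟨val σ, mem_range.mpr (val_lt σ), bits_val σ⟩

theorem card_allS (n : ℕ) : (allS n).card ≤ 2 ^ n := card_image_le.trans (by simp)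

theorem sum_allS {R : Type} [AddCommMonoid R] (n : ℕ) (g : List Bool → R) :
    ∑ σ ∈ allS n, g σ = ∑ i ∈ range (2 ^ n), g (bits n i) := by
  unfold allS
  rw [sum_image]
  intro i hi j hj h
  rw [← val_bits n i (by simpa using hi), h, val_bits n j (by simpa using hj)]

/-- the aligned block number `j` of length `l` -/
def blk (σ : List Bool) (l j : ℕ) : List Bool := (σ.drop (j * l)).take l

/-- the set of aligned blocks of length `l` -/
def blks (l : ℕ) (σ : List Bool) : Finset (List Bool) := (range (σ.length / l)).image (blk σ l)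

theorem length_blk {σ : List Bool} {l j : ℕ} (h : j < σ.length / l) : (blk σ l j).length = l := by
  have h1 : (j + 1) * l ≤ σ.length := (Nat.mul_le_mul_right l h).trans (Nat.div_mul_le_self _ _)
  unfold blk
  rw [List.length_take, List.length_drop]
  have : (j + 1) * l = j * l + l := by ring
  omega

theorem blks_sub (l : ℕ) (σ : List Bool) : blks l σ ⊆ allS l := by
  intro τ hτ
  obtain ⟨j, hj, rfl⟩ := mem_image.mp hτ
  exact mem_allS.mpr (length_blk (mem_range.mp hj))

theorem blk_blk (σ : List Bool) {l q a j : ℕ} (hj : j < q) :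
    blk (blk σ (q * l) a) l j = blk σ l (a * q + j) := by
  unfold blk
  rw [List.drop_take, List.take_take, List.drop_drop]
  have h1 : (j + 1) * l ≤ q * l := Nat.mul_le_mul_right l hj
  have h2 : (j + 1) * l = j * l + l := by ring
  rw [min_eq_left (by omega)]
  congr 2
  ring

theorem blks_blks {σ τ : List Bool} {l q : ℕ} (hl : 0 < l) (hτ : τ ∈ blks (q * l) σ) :
    blks l τ ⊆ blks l σ := by
  obtain ⟨a, ha, rfl⟩ := mem_image.mp hτ
  have ha' := mem_range.mp ha
  intro ρ hρ
  obtain ⟨j, hj, rfl⟩ := mem_image.mp hρ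
  rw [length_blk ha', Nat.mul_div_cancel _ hl, mem_range] at hj
  rw [blk_blk σ hj]
  refine mem_image.mpr ⟨_, mem_range.mpr ?_, rfl⟩
  have h1 : (a + 1) * (q * l) ≤ σ.length :=
    (Nat.mul_le_mul_right _ ha').trans (Nat.div_mul_le_self _ _)
  have h2 : a * q + j + 1 ≤ σ.length / l := by
    rw [Nat.le_div_iff_mul_le hl]
    refine le_trans ?_ h1
    have : (a * q + j + 1) ≤ (a + 1) * q := by nlinarith
    calc (a * q + j + 1) * l ≤ ((a + 1) * q) * l := Nat.mul_le_mul_right _ this
      _ = (a + 1) * (q * l) := by ring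
  omega

theorem eq_of_blk {l : ℕ} : ∀ (q : ℕ) {σ τ : List Bool}, σ.length = q * l → τ.length = q * l →
    (∀ j < q, blk σ l j = blk τ l j) → σ = τ := by
  intro q
  induction q with
  | zero =>
    intro σ τ h1 h2 _
    rw [zero_mul, List.length_eq_zero_iff] at h1 h2
    rw [h1, h2]
  | succ q ih =>
    intro σ τ h1 h2 h
    rw [← List.take_append_drop l σ, ← List.take_append_drop l τ]
    have e : (q + 1) * l = q * l + l := by ring
    congr 1
    · simpa [blk] using h 0 (by omega)
    · apply ih (by rw [List.length_drop]; omega) (by rw [List.length_drop]; omega)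
      intro j hj
      have := h (j + 1) (by omega)
      unfold blk at this ⊢
      rw [List.drop_drop, List.drop_drop]
      have e2 : l + j * l = (j + 1) * l := by ring
      rw [e2]; exact this

theorem card_few_blocks {l : ℕ} (hl : 0 < l) (q N : ℕ) :
    ((allS (q * l)).filter (fun τ => (blks l τ).card < N)).card ≤ 2 ^ 2 ^ l * N ^ q := by
  have hsub : (allS (q * l)).filter (fun τ => (blks l τ).card < N) ⊆
      ((allS l).powerset.filter (fun D => D.card < N)).biUnion
        (fun D => (allS (q * l)).filter (fun τ => blks l τ = D)) := by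
    intro τ hτ
    rw [mem_filter] at hτ
    rw [mem_biUnion]
    exact ⟨blks l τ, mem_filter.mpr ⟨mem_powerset.mpr (blks_sub l τ), hτ.2⟩,
      mem_filter.mpr ⟨hτ.1, rfl⟩⟩
  refine (card_le_card hsub).trans (card_biUnion_le.trans ?_)
  refine (sum_le_sum (g := fun _ => N ^ q) fun D hD => ?_).trans ?_
  · have hD' := (mem_filter.mp hD).2
    have : ((allS (q * l)).filter (fun τ => blks l τ = D)).card ≤
        (Fintype.piFinset (fun _ : Fin q => D)).card := by
      apply card_le_card_of_injOn (fun τ => fun j : Fin q => blk τ l j)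
      · intro τ hτ
        obtain ⟨h1, h2⟩ := mem_filter.mp hτ
        rw [mem_coe, Fintype.mem_piFinset]
        intro j
        rw [← h2]
        refine mem_image.mpr ⟨j, mem_range.mpr ?_, rfl⟩
        rw [mem_allS.mp h1, Nat.mul_div_cancel _ hl]
        exact j.2
      · intro τ hτ τ' hτ' h
        apply eq_of_blk q (mem_allS.mp (mem_filter.mp hτ).1) (mem_allS.mp (mem_filter.mp hτ').1)
        intro j hj
        exact congrFun h ⟨j, hj⟩
    refine this.trans ?_
    rw [Fintype.card_piFinset_const]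
    exact Nat.pow_le_pow_left hD'.le q
  · rw [sum_const, smul_eq_mul]
    refine Nat.mul_le_mul_right _ ((card_filter_le _ _).trans ?_)
    rw [card_powerset]
    exact Nat.pow_le_pow_right (by norm_num) (card_allS l)

/-- the unit of length at level `i` -/
def uu (k i : ℕ) : ℕ := Nat.rec (motive := fun _ => ℕ) (5 * k + 4) (fun _ u => u * 2 ^ ((k + 1) * u)) i

/-- the length of the blocks at level `i` -/
def ll (k i : ℕ) : ℕ := (k + 1) * uu k i

/-- the number of bits of an index at level `i` -/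
def ss (k i : ℕ) : ℕ := 2 * uu k i + k

theorem uu_succ (k i : ℕ) : uu k (i + 1) = uu k i * 2 ^ ll k i := rfl

theorem uu_mono (k : ℕ) : Monotone (uu k) := by
  apply monotone_nat_of_le_succ
  intro i
  rw [uu_succ]
  exact Nat.le_mul_of_pos_right _ (by positivity)

theorem le_uu (k i : ℕ) : 5 * k + 4 ≤ uu k i := uu_mono k (Nat.zero_le i)

theorem ll_pos (k i : ℕ) : 0 < ll k i := by
  have := le_uu k i
  exact Nat.mul_pos (by omega) (by omega)

theorem ll_succ (k i : ℕ) : ll k (i + 1) = 2 ^ ll k i * ll k i := by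
  rw [ll, uu_succ, ll]; ring

theorem ll_dvd (k : ℕ) {i j : ℕ} (h : i ≤ j) : ll k i ∣ ll k j := by
  induction j, h using Nat.le_induction with
  | base => exact dvd_rfl
  | succ j _ ih => rw [ll_succ]; exact ih.mul_left _

theorem uu_mono_left {k k' : ℕ} (h : k ≤ k') (i : ℕ) : uu k i ≤ uu k' i := by
  induction i with
  | zero => show 5 * k + 4 ≤ 5 * k' + 4; omega
  | succ i ih =>
    rw [uu_succ, uu_succ]
    refine Nat.mul_le_mul ih (Nat.pow_le_pow_right (by norm_num) ?_)
    exact Nat.mul_le_mul (by omega) ih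

/-- the length of the strings at stage `k` -/
def hh (k : ℕ) : ℕ := ll k k

theorem hh_mono : Monotone hh := by
  intro k k' h
  exact Nat.mul_le_mul (by omega) ((uu_mono k h).trans (uu_mono_left h k'))

theorem le_ll (k i : ℕ) : k ≤ ll k i := by
  have := le_uu k i
  unfold ll; nlinarith

/-- `σ` contains one of the forbidden blocks listed in `A` -/
def Hit (k : ℕ) (σ : List Bool) (A : List (List (List Bool))) : Prop :=
  ∃ i < k + 1, ∃ j < 2 ^ ss k i, ∃ a < σ.length / ll k i, blk σ (ll k i) a = (A.getD i []).getD j []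

/-- possible blocks at level `i` -/
def TT (k : ℕ) : ℕ → Finset (List Bool)
  | 0 => allS (ll k 0)
  | i + 1 => (allS (ll k (i + 1))).filter (fun τ => (blks (ll k i) τ).card < 2 ^ ((k - i) * uu k i))

theorem card_TT (k : ℕ) {i : ℕ} (hi : i ≤ k) : (TT k i).card ≤ 2 ^ ((k - i + 2) * uu k i) := by
  cases i with
  | zero =>
    refine (card_allS _).trans (Nat.pow_le_pow_right (by norm_num) ?_)
    exact Nat.mul_le_mul_right _ (by omega)
  | succ i =>
    rw [TT, ll_succ]
    refine (card_few_blocks (ll_pos k i) _ _).trans ?_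
    rw [← pow_mul, ← pow_add]
    refine Nat.pow_le_pow_right (by norm_num) ?_
    have e : k - (i + 1) + 2 = (k - i) + 1 := by omega
    rw [e, uu_succ]
    have := le_uu k i
    have h2 : 2 ^ ll k i ≤ uu k i * 2 ^ ll k i := Nat.le_mul_of_pos_left _ (by omega)
    nlinarith

/-- strings treated at level `i` -/
def Om (k i : ℕ) : Finset (List Bool) := (allS (hh k)).filter (fun σ =>
  2 ^ ((k - i) * uu k i) ≤ (blks (ll k i) σ).card ∧ blks (ll k i) σ ⊆ TT k i)

theorem exists_level (k : ℕ) {σ : List Bool} (hσ : σ ∈ allS (hh k)) : ∃ i < k + 1, σ ∈ Om k i := by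
  classical
  have hex : ∃ i, 2 ^ ((k - i) * uu k i) ≤ (blks (ll k i) σ).card := by
    refine ⟨k, ?_⟩
    rw [Nat.sub_self, zero_mul, pow_zero]
    apply card_pos.mpr
    refine ⟨_, mem_image.mpr ⟨0, mem_range.mpr ?_, rfl⟩⟩
    rw [mem_allS.mp hσ, hh, Nat.div_self (ll_pos k k)]; norm_num
  have hle : Nat.find hex ≤ k := by
    apply Nat.find_min'
    rw [Nat.sub_self, zero_mul, pow_zero]
    apply card_pos.mpr
    refine ⟨_, mem_image.mpr ⟨0, mem_range.mpr ?_, rfl⟩⟩
    rw [mem_allS.mp hσ, hh, Nat.div_self (ll_pos k k)]; norm_num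
  refine ⟨Nat.find hex, by omega, mem_filter.mpr ⟨hσ, Nat.find_spec hex, ?_⟩⟩
  have hmin := fun m => Nat.find_min hex (m := m)
  generalize Nat.find hex = i at *
  cases i with
  | zero => exact blks_sub _ _
  | succ i =>
    intro τ hτ
    refine mem_filter.mpr ⟨blks_sub _ _ hτ, ?_⟩
    rw [ll_succ] at hτ
    exact lt_of_le_of_lt (card_le_card (blks_blks (ll_pos k i) hτ)) (not_le.mp (hmin i (by omega)))

theorem level_cover (k : ℕ) {i : ℕ} (hi : i ≤ k) (w : List Bool → ℝ) (hw : ∀ a, 0 ≤ w a) :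
    ∃ A : List (List Bool), A.length = 2 ^ ss k i ∧
      ∑ σ ∈ (Om k i).filter (fun σ => ∀ τ ∈ A, τ ∉ blks (ll k i) σ), w σ ≤
        (1 / 2) ^ (2 * k) * ∑ σ ∈ allS (hh k), w σ := by
  have htot : 0 ≤ ∑ σ ∈ allS (hh k), w σ := sum_nonneg fun a _ => hw a
  rcases (Om k i).eq_empty_or_nonempty with h | ⟨σ0, hσ0⟩
  · refine ⟨List.replicate _ [], List.length_replicate, ?_⟩
    rw [h, filter_empty, sum_empty]; positivity
  have hT : (TT k i).Nonempty := by
    obtain ⟨-, h1, h2⟩ := mem_filter.mp hσ0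
    exact (card_pos.mp (lt_of_lt_of_le (by positivity) h1)).mono h2
  set P : ℝ := 2 ^ (2 * uu k i) with hP
  have hP1 : 1 ≤ P := one_le_pow₀ (by norm_num)
  obtain ⟨A, hA, hA'⟩ := greedy (TT k i) hT (blks (ll k i)) w hw P hP1 (2 ^ ss k i) (Om k i)
    (fun σ hσ => by
      obtain ⟨-, h1, h2⟩ := mem_filter.mp hσ
      refine ⟨h2, ?_⟩
      have h3 : (TT k i).card ≤ 2 ^ (2 * uu k i) * (blks (ll k i) σ).card := by
        refine (card_TT k hi).trans ?_
        rw [add_mul, pow_add, mul_comm]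
        exact Nat.mul_le_mul_left _ h1
      rw [hP]
      exact_mod_cast h3)
  refine ⟨A, hA, hA'.trans ?_⟩
  have h1 : ∑ σ ∈ Om k i, w σ ≤ ∑ σ ∈ allS (hh k), w σ :=
    sum_le_sum_of_subset_of_nonneg (filter_subset _ _) fun a _ _ => hw a
  have hq : 0 ≤ 1 - 1 / P := by rw [sub_nonneg, div_le_one (by linarith)]; exact hP1
  have h2 : (1 - 1 / P) ^ (2 ^ ss k i) ≤ (1 / 2) ^ (2 * k) := by
    have a1 : (1 - 1 / P) ^ (2 ^ (2 * uu k i)) ≤ 1 / 2 := by
      have b1 : 1 - 1 / P ≤ Real.exp (-(1 / P)) := by linarith [Real.add_one_le_exp (-(1 / P))]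
      refine (pow_le_pow_left₀ hq b1 _).trans ?_
      rw [← Real.exp_nat_mul]
      push_cast
      rw [← hP, mul_neg, mul_one_div_cancel (by linarith), Real.exp_neg]
      rw [one_div]
      apply inv_anti₀ (by norm_num)
      linarith [Real.add_one_le_exp (1 : ℝ)]
    rw [ss, pow_add, pow_mul]
    refine (pow_le_pow_left₀ (pow_nonneg hq _) a1 _).trans ?_
    apply pow_le_pow_of_le_one (by norm_num) (by norm_num)
    cases k with
    | zero => simp
    | succ k =>
      have := Nat.lt_two_pow_self (n := k)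
      rw [pow_succ]; omega
  exact mul_le_mul h2 h1 (sum_nonneg fun a _ => hw a) (by positivity)

open Classical in
theorem cover (k : ℕ) (w : List Bool → ℝ) (hw : ∀ a, 0 ≤ w a) :
    ∃ A : List (List (List Bool)), ∑ σ ∈ (allS (hh k)).filter (fun σ => ¬ Hit k σ A), w σ ≤
      (1 / 2) ^ k * ∑ σ ∈ allS (hh k), w σ := by
  have h := fun i => level_cover k (i := min i k) (min_le_right _ _) w hw
  choose A hA hA' using h
  refine ⟨(List.range (k + 1)).map A, ?_⟩
  have hsub : (allS (hh k)).filter (fun σ => ¬ Hit k σ ((List.range (k + 1)).map A)) ⊆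
      (range (k + 1)).biUnion (fun i => (Om k (min i k)).filter
        (fun σ => ∀ τ ∈ A i, τ ∉ blks (ll k (min i k)) σ)) := by
    intro σ hσ
    obtain ⟨h1, h2⟩ := mem_filter.mp hσ
    obtain ⟨i, hi, hσi⟩ := exists_level k h1
    have e : min i k = i := min_eq_left (by omega)
    refine mem_biUnion.mpr ⟨i, mem_range.mpr hi, mem_filter.mpr ⟨by rwa [e], fun τ hτ hb => h2 ?_⟩⟩
    rw [e] at hb
    obtain ⟨a, ha, hab⟩ := mem_image.mp hb
    obtain ⟨j, hj, hjτ⟩ := List.mem_iff_getElem.mp hτ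
    refine ⟨i, hi, j, by rw [← e, ← hA i]; exact hj, a, mem_range.mp ha, ?_⟩
    have e2 : ((List.range (k + 1)).map A).getD i [] = A i := by
      rw [List.getD_eq_getElem _ _ (by simpa using hi)]; simp
    rw [e2, List.getD_eq_getElem _ _ hj, hjτ, hab]
  refine (sum_le_sum_of_subset_of_nonneg hsub fun a _ _ => hw a).trans ?_
  have h1 : ∑ σ ∈ (range (k + 1)).biUnion (fun i => (Om k (min i k)).filter
        (fun σ => ∀ τ ∈ A i, τ ∉ blks (ll k (min i k)) σ)), w σ ≤
      ∑ i ∈ range (k + 1), ∑ σ ∈ (Om k (min i k)).filter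
        (fun σ => ∀ τ ∈ A i, τ ∉ blks (ll k (min i k)) σ), w σ := by
    generalize range (k + 1) = s
    induction s using Finset.induction_on with
    | empty => simp
    | insert a s ha ih =>
      rw [biUnion_insert, sum_insert ha]
      have := sum_union_inter (s₁ := (Om k (min a k)).filter
        (fun σ => ∀ τ ∈ A a, τ ∉ blks (ll k (min a k)) σ)) (s₂ := s.biUnion (fun i =>
        (Om k (min i k)).filter (fun σ => ∀ τ ∈ A i, τ ∉ blks (ll k (min i k)) σ))) (f := w)
      have h0 := sum_nonneg (s := (Om k (min a k)).filter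
        (fun σ => ∀ τ ∈ A a, τ ∉ blks (ll k (min a k)) σ) ∩ s.biUnion (fun i =>
        (Om k (min i k)).filter (fun σ => ∀ τ ∈ A i, τ ∉ blks (ll k (min i k)) σ)))
        (fun a _ => hw a)
      linarith
  refine h1.trans ((sum_le_sum fun i _ => hA' i).trans ?_)
  rw [sum_const, card_range, nsmul_eq_mul, ← mul_assoc]
  refine mul_le_mul_of_nonneg_right ?_ (sum_nonneg fun a _ => hw a)
  have h2 : ((k + 1 : ℕ) : ℝ) ≤ 2 ^ k := by exact_mod_cast Nat.lt_two_pow_self
  have h3 : (1 / 2 : ℝ) ^ (2 * k) * 2 ^ k = (1 / 2) ^ k := by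
    rw [two_mul, pow_add, mul_assoc, ← mul_pow]; simp
  have h4 : (0 : ℝ) ≤ (1 / 2) ^ (2 * k) := by positivity
  nlinarith

end Pool.Agent.H285Z.SC
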