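import Mathlib

/-! Prefix-free complexity, left-c.e. continuous semimeasures, shift-complex classes, depth. -/

set_option autoImplicit false

namespace Pool.Agent.H285Z.SC

/-- A prefix-free machine: a partial computable map on binary strings whose domain is
prefix-free. -/
def IsPFMachine (V : List Bool →. List Bool) : Prop :=
  Partrec V ∧ ∀ p q : List Bool, (V p).Dom → (V q).Dom → p <+: q → p = q

/-- A universal (additively optimal) prefix-free machine. -/
def IsUniversalMachine (U : List Bool →. List Bool) : Prop :=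
  IsPFMachine U ∧ ∀ V : List Bool →. List Bool, IsPFMachine V →
    ∃ c : ℕ, ∀ p x : List Bool, x ∈ V p → ∃ q : List Bool, x ∈ U q ∧ q.length ≤ p.length + c

/-- Prefix-free complexity with respect to `U`: the least length of a program for `x`. -/
noncomputable def KK (U : List Bool →. List Bool) (x : List Bool) : ℕ :=
  sInf {l : ℕ | ∃ p : List Bool, p.length = l ∧ x ∈ U p}

/-- A continuous semimeasure on binary strings. -/
def IsSemimeasure (M : List Bool → ℝ) : Prop :=
  (∀ x, 0 ≤ M x) ∧ M [] ≤ 1 ∧ ∀ x, M (x ++ [false]) + M (x ++ [true]) ≤ M x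

/-- `M` is left-c.e.: `M x` is the limit of a nondecreasing sequence of nonnegative rationals
`p x t / (q x t + 1)`, computable uniformly in `x` and `t`. -/
def LeftCE (M : List Bool → ℝ) : Prop :=
  ∃ p q : List Bool → ℕ → ℕ, Computable₂ p ∧ Computable₂ q ∧
    ∀ x, Monotone (fun t => (p x t : ℝ) / (q x t + 1)) ∧
      Filter.Tendsto (fun t => (p x t : ℝ) / (q x t + 1)) Filter.atTop (nhds (M x))

/-- An order function with natural values: computable, nondecreasing and unbounded. -/
def IsOrder (f : ℕ → ℕ) : Prop := Computable f ∧ Monotone f ∧ ∀ b, ∃ n, b ≤ f n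

/-- The block of `l` consecutive bits of `X` starting at position `s`. -/
def block (X : ℕ → Bool) (s l : ℕ) : List Bool := List.ofFn fun i : Fin l => X (s + i)

/-- The class `SC(f, c)`: every block `τ` of `X` has `K(τ) ≥ f(|τ|) - c`. -/
def ShiftComplex (U : List Bool →. List Bool) (f : ℕ → ℕ) (c : ℕ) : Set (ℕ → Bool) :=
  {X | ∀ s l : ℕ, (f l : ℤ) - c ≤ KK U (block X s l)}

open Classical in
/-- `M(P ↾ m)`: the sum of `M σ` over the strings `σ` of length `m` which are initial segments of
members of `P`. -/
noncomputable def mass (M : List Bool → ℝ) (P : Set (ℕ → Bool)) (m : ℕ) : ℝ :=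
  ∑ x : Fin m → Bool, if ∃ X ∈ P, ∀ i : Fin m, X i = x i then M (List.ofFn x) else 0

/-- `P` is deep (with respect to the semimeasure `M`). -/
def Deep (M : List Bool → ℝ) (P : Set (ℕ → Bool)) : Prop :=
  ∃ h : ℕ → ℕ, IsOrder h ∧ ∀ n, mass M P (h n) ≤ (1 / 2) ^ n

end Pool.Agent.H285Z.SC
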