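import Pool.Agent.H285Z.SC.Proc

/-! The machine describing forbidden blocks, the sublinear order function, and depth. -/

set_option autoImplicit false

open Finset Filter Topology

namespace Pool.Agent.H285Z.SC

/-- the string `1^m 0` -/
def una (m : ℕ) : List Bool := seg (fun j => decide (j < m)) (m + 1)

theorem length_una (m : ℕ) : (una m).length = m + 1 := seg_length _ _

theorem una_comp {α : Type} [Primcodable α] {m : α → ℕ} (hm : Computable m) :
    Computable fun a => una (m a) :=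
  seg_comp (f := fun a j => decide (j < m a))
    (Computable₂.mk (clt Computable.snd (hm.comp Computable.fst))) (cadd hm (Computable.const 1))

theorem una_prefix {a b : ℕ} {x y : List Bool} (h : una a ++ x <+: una b ++ y) : a = b := by
  obtain ⟨r, hr⟩ := h
  have key : ∀ i, i ≤ a → i ≤ b → decide (i < a) = decide (i < b) := by
    intro i ha hb
    have h1 := congrArg (fun l : List Bool => l[i]?) hr
    simp only [List.append_assoc] at h1
    rw [List.getElem?_append_left (by rw [length_una]; omega),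
      List.getElem?_append_left (by rw [length_una]; omega), una, una, seg_get _ (by omega),
      seg_get _ (by omega)] at h1
    exact Option.some.inj h1
  rcases lt_trichotomy a b with h | h | h
  · simpa [h] using key a le_rfl h.le
  · exact h
  · simpa [h] using key b h.le le_rfl

/-- the program for the entry number `n` at level `i` of stage `k` -/
def enc (k i n : ℕ) : List Bool := una k ++ (una i ++ bits (k + 1 + ss k i) n)

theorem length_enc (k i n : ℕ) : (enc k i n).length = 3 * k + i + 3 + 2 * uu k i := by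
  simp only [enc, List.length_append, length_una, bits_length, ss]; ring

theorem enc_prefix {k i n k' i' n' : ℕ} (h : enc k i n <+: enc k' i' n') :
    k = k' ∧ i = i' ∧ enc k i n = enc k' i' n' := by
  have h1 : k = k' := una_prefix h
  subst h1
  have h2 : i = i' := una_prefix ((List.prefix_append_right_inj _).mp h)
  subst h2
  exact ⟨rfl, rfl, h.eq_of_length (by rw [length_enc, length_enc])⟩

theorem enc_inj {k i n n' : ℕ} (hn : n < 2 ^ (k + 1 + ss k i)) (hn' : n' < 2 ^ (k + 1 + ss k i))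
    (h : enc k i n = enc k i n') : n = n' := by
  have := List.append_cancel_left (List.append_cancel_left h)
  rw [← val_bits _ n hn, this, val_bits _ n' hn']

theorem machine {S : ℕ → ℕ → ℕ × ℕ} (hS : Computable₂ S)
    (hSe : ∀ k t t', (S k t).1 = (S k t').1 → S k t' = S k t) :
    ∃ V : List Bool →. List Bool, IsPFMachine V ∧ ∀ k t i j, (S k t).1 < 2 ^ (k + 1) →
      j < 2 ^ ss k i → elt (S k t).2 i j ∈ V (enc k i ((S k t).1 * 2 ^ ss k i + j)) := by
  obtain ⟨fk, fi, fn, ft, hk, hi, hn, ht, hsurj⟩ : ∃ fk fi fn ft : ℕ → ℕ, Computable fk ∧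
      Computable fi ∧ Computable fn ∧ Computable ft ∧
      ∀ k i n t, ∃ z, fk z = k ∧ fi z = i ∧ fn z = n ∧ ft z = t := by
    have u1 : Computable fun z : ℕ => z.unpair.1 := (Primrec.fst.comp Primrec.unpair).to_comp
    have u2 : Computable fun z : ℕ => z.unpair.2 := (Primrec.snd.comp Primrec.unpair).to_comp
    exact ⟨_, _, _, _, u1.comp u1, u2.comp u1, u1.comp u2, u2.comp u2,
      fun k i n t => ⟨Nat.pair (Nat.pair k i) (Nat.pair n t), by simp⟩⟩
  obtain ⟨E, hE, hEe⟩ : ∃ E : ℕ → List Bool, Computable E ∧ ∀ z, E z = enc (fk z) (fi z) (fn z) :=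
    ⟨_, cappend (una_comp hk) (cappend (una_comp hi)
      (bits_comp (cadd (cadd hk (Computable.const 1)) (ss_comp hk hi)) hn)), fun _ => rfl⟩
  obtain ⟨G, hG, hGe⟩ : ∃ G : ℕ → Bool, Computable G ∧ ∀ z, G z = true ↔
      fn z < 2 ^ (fk z + 1 + ss (fk z) (fi z)) ∧ (S (fk z) (ft z)).1 = fn z / 2 ^ ss (fk z) (fi z) :=
    ⟨_, cand (clt hn (cpw (cadd (cadd hk (Computable.const 1)) (ss_comp hk hi))))
      (ceqN (Computable.fst.comp (hS.comp hk ht)) (cdiv hn (cpw (ss_comp hk hi)))),
      fun z => by simp⟩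
  obtain ⟨O, hO, hOe⟩ : ∃ O : ℕ → List Bool, Computable O ∧ ∀ z, O z =
      elt (S (fk z) (ft z)).2 (fi z) (fn z % 2 ^ ss (fk z) (fi z)) :=
    ⟨_, elt_comp (Computable.snd.comp (hS.comp hk ht)) hi (cmod hn (cpw (ss_comp hk hi))),
      fun _ => rfl⟩
  obtain ⟨ok, hok, hoke⟩ : ∃ ok : List Bool → ℕ → Bool, Computable₂ ok ∧
      ∀ p z, ok p z = true ↔ p = E z ∧ G z = true :=
    ⟨fun p z => decide (p = E z) && G z, Computable₂.mk (cand (ceqL Computable.fst
      (hE.comp Computable.snd)) (hG.comp Computable.snd)), fun p z => by simp⟩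
  refine ⟨fun p => (Nat.rfind (fun z => (ok p z : Part Bool))).map O, ⟨?_, ?_⟩, ?_⟩
  · exact (Partrec.rfind hok.partrec₂).map (hO.comp Computable.snd).to₂
  · have key : ∀ p, ((Nat.rfind (fun z => (ok p z : Part Bool))).map O).Dom →
        ∃ k i n, p = enc k i n := by
      intro p hp
      obtain ⟨z, hz⟩ := Part.dom_iff_mem.mp (show (Nat.rfind _).Dom from hp)
      have h1 := (Nat.mem_rfind.mp hz).1
      have h2 : ok p z = true := by simpa using h1
      exact ⟨_, _, _, ((hoke p z).mp h2).1.trans (hEe z)⟩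
    intro p q hp hq hpq
    obtain ⟨k, i, n, rfl⟩ := key p hp
    obtain ⟨k', i', n', rfl⟩ := key q hq
    exact (enc_prefix hpq).2.2
  · intro k t i j h1 h2
    set n := (S k t).1 * 2 ^ ss k i + j with hn'
    have hdiv : n / 2 ^ ss k i = (S k t).1 := by
      rw [hn', add_comm, Nat.add_mul_div_right _ _ (by positivity), Nat.div_eq_of_lt h2, zero_add]
    have hmod : n % 2 ^ ss k i = j := by
      rw [hn', add_comm, Nat.add_mul_mod_self_right, Nat.mod_eq_of_lt h2]
    have hlt : n < 2 ^ (k + 1 + ss k i) := by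
      rw [pow_add, hn']
      nlinarith
    obtain ⟨z0, e1, e2, e3, e4⟩ := hsurj k i n t
    have hz0 : ok (enc k i n) z0 = true := by
      rw [hoke, hEe, hGe, e1, e2, e3, e4]
      exact ⟨rfl, hlt, hdiv.symm⟩
    obtain ⟨z, hz, -⟩ := Nat.rfind_min' (p := ok (enc k i n)) hz0
    have h3 : ok (enc k i n) z = true := by simpa using (Nat.mem_rfind.mp hz).1
    rw [hoke, hEe, hGe] at h3
    obtain ⟨h4, h5, h6⟩ := h3
    obtain ⟨a1, a2, -⟩ := enc_prefix (h4 ▸ List.prefix_rfl : enc k i n <+: enc (fk z) (fi z) (fn z))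
    rw [← a1, ← a2] at h4 h5 h6
    have a3 : n = fn z := enc_inj hlt h5 h4
    rw [← a3, hdiv] at h6
    rw [Part.mem_map_iff]
    refine ⟨z, hz, ?_⟩
    rw [hOe, ← a1, ← a2, ← a3, hmod, hSe k _ _ h6]

/-- the order function -/
def ff (n : ℕ) : ℕ :=
  Nat.rec (motive := fun _ => ℕ) 0 (fun k acc => max acc (3 * (min n (hh k) / (k + 1)))) (n + 1)

theorem ff_eq (n : ℕ) : ff n = (range (n + 1)).sup (fun k => 3 * (min n (hh k) / (k + 1))) := by
  unfold ff
  generalize n + 1 = m
  induction m with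
  | zero => rfl
  | succ m ih =>
    rw [range_add_one, sup_insert, ← ih, max_comm]

theorem ff_comp : Computable ff := by
  have h1 : Computable₂ fun (n : ℕ) (y : ℕ × ℕ) => max y.2 (3 * (min n (hh y.1) / (y.1 + 1))) := by
    have k1 : Computable fun x : ℕ × ℕ × ℕ => x.2.1 := Computable.fst.comp Computable.snd
    exact Computable₂.mk (Primrec.nat_max.to_comp.comp (Computable.snd.comp Computable.snd)
      (cmul (Computable.const 3) (cdiv (Primrec.nat_min.to_comp.comp Computable.fst (hh_comp k1))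
        (cadd k1 (Computable.const 1)))))
  exact (Computable.nat_rec (cadd Computable.id (Computable.const 1)) (Computable.const 0) h1).of_eq
    fun a => rfl

theorem le_ff {k i : ℕ} (hi : i ≤ k) : 3 * uu k i ≤ ff (ll k i) := by
  rw [ff_eq]
  refine le_trans (le_of_eq ?_) (le_sup (f := fun k' => 3 * (min (ll k i) (hh k') / (k' + 1)))
    (mem_range.mpr (Nat.lt_succ_of_le (le_ll k i))))
  have : ll k i ≤ hh k := Nat.mul_le_mul_left _ (uu_mono k hi)
  rw [min_eq_left this, ll, Nat.mul_div_cancel_left _ (by omega)]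

theorem ff_order : IsOrder ff := by
  refine ⟨ff_comp, ?_, fun b => ⟨ll b 0, le_trans ?_ (le_ff (Nat.zero_le b))⟩⟩
  · intro m n h
    rw [ff_eq, ff_eq]
    refine Finset.sup_le fun k hk => le_trans ?_ (le_sup (f := fun k => 3 * (min n (hh k) / (k + 1)))
      (mem_range.mpr (lt_of_lt_of_le (mem_range.mp hk) (by omega))))
    exact Nat.mul_le_mul_left _ (Nat.div_le_div_right (min_le_min_right _ h))
  · have := le_uu b 0
    omega

theorem ff_le (K n : ℕ) : (ff n : ℝ) ≤ 3 * hh K + 3 * n / (K + 1) := by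
  rw [ff_eq]
  obtain ⟨k, -, hk⟩ := exists_mem_eq_sup (range (n + 1)) ⟨0, by simp⟩
    (fun k => 3 * (min n (hh k) / (k + 1)))
  rw [hk]
  have hK : (0 : ℝ) < K + 1 := by positivity
  rcases le_total k K with h | h
  · have h1 : min n (hh k) / (k + 1) ≤ hh K :=
      (Nat.div_le_self _ _).trans ((min_le_right _ _).trans (hh_mono h))
    have h2 : ((min n (hh k) / (k + 1) : ℕ) : ℝ) ≤ hh K := by exact_mod_cast h1
    have h3 : (0 : ℝ) ≤ 3 * n / (K + 1) := by positivity
    push_cast at h2 ⊢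
    linarith
  · have h1 : (min n (hh k) / (k + 1)) * (K + 1) ≤ n :=
      (Nat.mul_le_mul_left _ (by omega)).trans ((Nat.div_mul_le_self _ (k + 1)).trans (min_le_left _ _))
    have h2 : ((min n (hh k) / (k + 1) : ℕ) : ℝ) * (K + 1) ≤ n := by exact_mod_cast h1
    have h3 : ((min n (hh k) / (k + 1) : ℕ) : ℝ) ≤ n / (K + 1) := by rwa [le_div_iff₀ hK]
    have h4 : (0 : ℝ) ≤ hh K := by positivity
    rw [Nat.cast_mul, mul_div_assoc]
    push_cast at h3 ⊢
    linarith

theorem ff_sublinear : Tendsto (fun n : ℕ => (ff n : ℝ) / n) atTop (𝓝 0) := by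
  rw [Metric.tendsto_atTop]
  intro ε hε
  obtain ⟨K, hK⟩ := exists_nat_one_div_lt (show 0 < ε / 6 by positivity)
  obtain ⟨N, hN⟩ := exists_nat_gt (6 * hh K / ε)
  refine ⟨N + 1, fun n hn => ?_⟩
  have hn' : (N : ℝ) + 1 ≤ n := by exact_mod_cast hn
  have hn0 : (0 : ℝ) < n := by linarith [Nat.cast_nonneg (α := ℝ) N]
  rw [Real.dist_eq, sub_zero, abs_of_nonneg (by positivity), div_lt_iff₀ hn0]
  rw [div_lt_iff₀ hε] at hN
  have h1 := ff_le K n
  have h2 : 3 * (n : ℝ) / (K + 1) = 3 * n * (1 / (K + 1)) := by ring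
  nlinarith

theorem blk_ofFn {X : ℕ → Bool} {m : ℕ} {x : Fin m → Bool} (hx : ∀ i : Fin m, X i = x i) {l a : ℕ}
    (ha : a < m / l) : blk (List.ofFn x) l a = block X (a * l) l := by
  have h1 : (a + 1) * l ≤ m := (Nat.mul_le_mul_right l ha).trans (Nat.div_mul_le_self _ _)
  have h2 : (a + 1) * l = a * l + l := by ring
  apply List.ext_getElem
  · rw [length_blk (by simpa using ha)]; simp [block]
  · intro i hi1 hi2
    simp [blk, block, ← hx]

theorem deep (U : List Bool →. List Bool) (hU : IsUniversalMachine U) (M : List Bool → ℝ)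
    (hM : IsSemimeasure M) (hL : LeftCE M) (c : ℕ) : Deep M (ShiftComplex U ff c) := by
  classical
  obtain ⟨S, hS, hSe, hSk⟩ := process hM hL
  obtain ⟨V, hV, hVe⟩ := machine hS hSe
  obtain ⟨d, hd⟩ := hU.2 V hV
  refine ⟨fun n => hh (n + (c + d + 2)), ⟨hh_comp (cadd Computable.id (Computable.const _)),
    fun m n h => hh_mono (by omega), fun b => ⟨b, le_trans (by omega) (le_ll _ _)⟩⟩, fun n => ?_⟩
  set k := n + (c + d + 2) with hk
  obtain ⟨t, ht1, ht2⟩ := hSk k (by omega)
  have h1 : mass M (ShiftComplex U ff c) (hh k) ≤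
      ∑ σ ∈ (allS (hh k)).filter (fun σ => ¬ Hit k σ (dec (S k t).2)), M σ := by
    unfold mass
    rw [← sum_filter, ← sum_image (g := fun x : Fin (hh k) → Bool => List.ofFn x) (f := M)
      (fun x _ y _ h => List.ofFn_injective h)]
    refine sum_le_sum_of_subset_of_nonneg ?_ fun σ _ _ => hM.1 σ
    intro σ hσ
    obtain ⟨x, hx, rfl⟩ := mem_image.mp hσ
    obtain ⟨X, hX, hXx⟩ := (mem_filter.mp hx).2
    refine mem_filter.mpr ⟨mem_allS.mpr (by simp), ?_⟩
    rintro ⟨i, hi, j, hj, a, ha, hb⟩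
    rw [List.length_ofFn] at ha
    rw [blk_ofFn hXx ha] at hb
    obtain ⟨r, hr1, hr2⟩ := hd _ _ (hVe k t i j ht1 hj)
    have h2 : KK U (block X (a * ll k i) (ll k i)) ≤ r.length :=
      Nat.sInf_le ⟨r, rfl, by rw [hb]; exact hr1⟩
    have h3 := hX (a * ll k i) (ll k i)
    have h4 := le_ff (k := k) (i := i) (by omega)
    have h5 := le_uu k i
    rw [length_enc] at hr2
    omega
  refine h1.trans (ht2.trans ?_)
  rw [hk, pow_add]
  have h2 : (1 / 2 : ℝ) ^ (c + d + 2) ≤ (1 / 2) ^ 2 :=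
    pow_le_pow_of_le_one (by norm_num) (by norm_num) (by omega)
  have h3 : (0 : ℝ) < (1 / 2) ^ n := by positivity
  nlinarith

end Pool.Agent.H285Z.SC
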