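import Pool.Agent.H285Z.SC.Cover
import Pool.Agent.H285Z.SC.Defs

/-! The computable process which chooses forbidden blocks against a left-c.e. semimeasure. -/

set_option autoImplicit false

open Finset Filter Topology

namespace Pool.Agent.H285Z.SC

section comp
variable {α : Type} [Primcodable α]

theorem uu_comp {k i : α → ℕ} (hk : Computable k) (hi : Computable i) :
    Computable fun a => uu (k a) (i a) := by
  have h0 : Computable fun p : α × ℕ × ℕ => p.2.2 := Computable.snd.comp Computable.snd
  have h1 : Computable₂ fun (a : α) (p : ℕ × ℕ) => p.2 * 2 ^ ((k a + 1) * p.2) :=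
    (cmul h0 (cpw (cmul (cadd (hk.comp Computable.fst) (Computable.const 1)) h0))).to₂
  exact (Computable.nat_rec hi (cadd (cmul (Computable.const 5) hk) (Computable.const 4)) h1).of_eq
    fun a => rfl

theorem ll_comp {k i : α → ℕ} (hk : Computable k) (hi : Computable i) :
    Computable fun a => ll (k a) (i a) := cmul (cadd hk (Computable.const 1)) (uu_comp hk hi)

theorem ss_comp {k i : α → ℕ} (hk : Computable k) (hi : Computable i) :
    Computable fun a => ss (k a) (i a) := cadd (cmul (Computable.const 2) (uu_comp hk hi)) hk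

theorem hh_comp {k : α → ℕ} (hk : Computable k) : Computable fun a => hh (k a) := ll_comp hk hk

theorem blk_comp {σ : α → List Bool} {l j : α → ℕ} (hσ : Computable σ) (hl : Computable l)
    (hj : Computable j) : Computable fun a => blk (σ a) (l a) (j a) :=
  ctake (cdrop hσ (cmul hj hl)) hl

theorem comp3 {β γ δ ε : Type} [Primcodable β] [Primcodable γ] [Primcodable δ] [Primcodable ε]
    (f : β → γ → δ → ε) (hf : Computable fun x : β × γ × δ => f x.1 x.2.1 x.2.2)
    {a : α → β} {b : α → γ} {c : α → δ} (ha : Computable a) (hb : Computable b)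
    (hc : Computable c) : Computable fun x => f (a x) (b x) (c x) :=
  hf.comp (ha.pair (hb.pair hc))

end comp

/-- decoding of a table of forbidden blocks -/
def dec (n : ℕ) : List (List (List Bool)) := (Encodable.decode n).getD []

/-- an entry of the table -/
def elt (n i j : ℕ) : List Bool := ((dec n).getD i []).getD j []

theorem elt_comp {α : Type} [Primcodable α] {n i j : α → ℕ} (hn : Computable n) (hi : Computable i)
    (hj : Computable j) : Computable fun a => elt (n a) (i a) (j a) := by
  have h1 : Primrec dec := Primrec.option_getD.comp Primrec.decode (Primrec.const [])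
  have h2 : Primrec₂ fun (l : List (List (List Bool))) (i : ℕ) => l.getD i [] :=
    Primrec.list_getD []
  have h3 : Primrec₂ fun (l : List (List Bool)) (i : ℕ) => l.getD i [] := Primrec.list_getD []
  exact h3.to_comp.comp (h2.to_comp.comp (h1.to_comp.comp hn) hi) hj

/-- decidable form of `Hit` -/
def hitb (k : ℕ) (σ : List Bool) (n : ℕ) : Bool :=
  bex (k + 1) fun i => bex (2 ^ ss k i) fun j => bex (σ.length / ll k i) fun a =>
    decide (blk σ (ll k i) a = elt n i j)

theorem hitb_iff (k : ℕ) (σ : List Bool) (n : ℕ) : hitb k σ n = true ↔ Hit k σ (dec n) := by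
  simp only [hitb, bex_iff, decide_eq_true_eq]
  rfl

theorem hitb_comp0 : Computable fun x : ℕ × List Bool × ℕ => hitb x.1 x.2.1 x.2.2 := by
  unfold hitb
  refine bex_comp (cadd Computable.fst (Computable.const 1)) (Computable₂.mk ?_)
  refine bex_comp (cpw (ss_comp (Computable.fst.comp Computable.fst) Computable.snd))
    (Computable₂.mk ?_)
  have k2 : Computable fun y : ((ℕ × List Bool × ℕ) × ℕ) × ℕ => y.1.1.1 :=
    Computable.fst.comp (Computable.fst.comp Computable.fst)
  have s2 : Computable fun y : ((ℕ × List Bool × ℕ) × ℕ) × ℕ => y.1.1.2.1 :=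
    Computable.fst.comp (Computable.snd.comp (Computable.fst.comp Computable.fst))
  have n2 : Computable fun y : ((ℕ × List Bool × ℕ) × ℕ) × ℕ => y.1.1.2.2 :=
    Computable.snd.comp (Computable.snd.comp (Computable.fst.comp Computable.fst))
  have i2 : Computable fun y : ((ℕ × List Bool × ℕ) × ℕ) × ℕ => y.1.2 :=
    Computable.snd.comp Computable.fst
  refine bex_comp (cdiv (clen s2) (ll_comp k2 i2)) (Computable₂.mk ?_)
  exact ceqL (blk_comp (s2.comp Computable.fst) (ll_comp (k2.comp Computable.fst)
    (i2.comp Computable.fst)) Computable.snd) (elt_comp (n2.comp Computable.fst)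
    (i2.comp Computable.fst) (Computable.snd.comp Computable.fst))

theorem hitb_comp {α : Type} [Primcodable α] {k n : α → ℕ} {σ : α → List Bool} (hk : Computable k)
    (hσ : Computable σ) (hn : Computable n) : Computable fun a => hitb (k a) (σ a) (n a) :=
  comp3 hitb hitb_comp0 hk hσ hn

variable (p q : List Bool → ℕ → ℕ)

/-- integer weight of a string -/
def wt (k : ℕ) (σ : List Bool) (t : ℕ) : ℕ := 2 ^ (hh k + k) * p σ t / (q σ t + 1)

/-- weight of the strings avoiding the table number `n` -/
def avoid (k n t : ℕ) : ℕ :=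
  nsum (2 ^ hh k) fun m => bif hitb k (bits (hh k) m) n then 0 else wt p q k (bits (hh k) m) t

variable {p q}

theorem wt_comp (hp : Computable₂ p) (hq : Computable₂ q) {α : Type} [Primcodable α] {k t : α → ℕ}
    {σ : α → List Bool} (hk : Computable k) (hσ : Computable σ) (ht : Computable t) :
    Computable fun a => wt p q (k a) (σ a) (t a) :=
  cdiv (cmul (cpw (cadd (hh_comp hk) hk)) (hp.comp hσ ht)) (cadd (hq.comp hσ ht) (Computable.const 1))

theorem avoid_comp0 (hp : Computable₂ p) (hq : Computable₂ q) :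
    Computable fun x : ℕ × ℕ × ℕ => avoid p q x.1 x.2.1 x.2.2 := by
  unfold avoid
  refine nsum_comp (cpw (hh_comp Computable.fst)) (Computable₂.mk ?_)
  have k1 : Computable fun y : (ℕ × ℕ × ℕ) × ℕ => y.1.1 := Computable.fst.comp Computable.fst
  have b1 : Computable fun y : (ℕ × ℕ × ℕ) × ℕ => bits (hh y.1.1) y.2 :=
    bits_comp (hh_comp k1) Computable.snd
  exact cite (hitb_comp k1 b1 (Computable.fst.comp (Computable.snd.comp Computable.fst)))
    (Computable.const 0)
    (wt_comp hp hq k1 b1 (Computable.snd.comp (Computable.snd.comp Computable.fst)))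

theorem avoid_comp (hp : Computable₂ p) (hq : Computable₂ q) {α : Type} [Primcodable α]
    {k n t : α → ℕ} (hk : Computable k) (hn : Computable n) (ht : Computable t) :
    Computable fun a => avoid p q (k a) (n a) (t a) :=
  comp3 (avoid p q) (avoid_comp0 hp hq) hk hn ht

open Classical in
theorem avoid_eq (k n t : ℕ) : avoid p q k n t =
    ∑ σ ∈ (allS (hh k)).filter (fun σ => ¬ Hit k σ (dec n)), wt p q k σ t := by
  rw [avoid, nsum_eq, sum_filter, sum_allS]
  refine sum_congr rfl fun m _ => ?_
  rw [← hitb_iff]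
  cases hitb k (bits (hh k) m) n <;> simp

theorem wt_eq (k : ℕ) (σ : List Bool) (t : ℕ) :
    wt p q k σ t = ⌊(2 : ℝ) ^ (hh k + k) * ((p σ t : ℝ) / (q σ t + 1))⌋₊ := by
  rw [wt, ← Nat.floor_div_eq_div (K := ℝ)]
  congr 1
  push_cast
  ring

theorem sum_semi {M : List Bool → ℝ} (hM : IsSemimeasure M) (n : ℕ) : ∑ σ ∈ allS n, M σ ≤ 1 := by
  refine le_trans ?_ hM.2.1
  rw [sum_allS]
  induction n with
  | zero => simp [bits_zero]
  | succ n ih =>
    refine le_trans ?_ ih
    rw [pow_succ, mul_comm]
    generalize 2 ^ n = N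
    induction N with
    | zero => simp
    | succ N ihN =>
      rw [Nat.mul_succ, sum_range_succ, sum_range_succ, sum_range_succ, bits_succ, bits_succ]
      have e1 : 2 * N / 2 = N := by omega
      have e2 : (2 * N + 1) / 2 = N := by omega
      have e3 : decide (2 * N % 2 = 1) = false := by simp
      have e4 : decide ((2 * N + 1) % 2 = 1) = true := by simp
      rw [e1, e2, e3, e4]
      linarith [hM.2.2 (bits n N)]

/-- the state of the process: number of changes and current table -/
def state (p q : List Bool → ℕ → ℕ) (F : ℕ × ℕ → ℕ) (k t : ℕ) : ℕ × ℕ :=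
  Nat.rec (motive := fun _ => ℕ × ℕ) (0, F (k, 0)) (fun t s =>
    bif decide (2 * 2 ^ hh k < avoid p q k s.2 (t + 1)) then (s.1 + 1, F (k, t + 1)) else s) t

theorem state_succ (F : ℕ × ℕ → ℕ) (k t : ℕ) : state p q F k (t + 1) =
    bif decide (2 * 2 ^ hh k < avoid p q k (state p q F k t).2 (t + 1)) then
      ((state p q F k t).1 + 1, F (k, t + 1)) else state p q F k t := rfl

theorem state_comp0 (hp : Computable₂ p) (hq : Computable₂ q) {F : ℕ × ℕ → ℕ} (hF : Computable F) :
    Computable fun x : ℕ × ℕ => state p q F x.1 x.2 := by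
  have k1 : Computable fun y : (ℕ × ℕ) × ℕ × ℕ × ℕ => y.1.1 := Computable.fst.comp Computable.fst
  have t1 : Computable fun y : (ℕ × ℕ) × ℕ × ℕ × ℕ => y.2.1 + 1 :=
    cadd (Computable.fst.comp Computable.snd) (Computable.const 1)
  have s1 : Computable fun y : (ℕ × ℕ) × ℕ × ℕ × ℕ => y.2.2 := Computable.snd.comp Computable.snd
  have h1 : Computable₂ fun (x : ℕ × ℕ) (y : ℕ × ℕ × ℕ) =>
      bif decide (2 * 2 ^ hh x.1 < avoid p q x.1 y.2.2 (y.1 + 1)) then
        (y.2.1 + 1, F (x.1, y.1 + 1)) else y.2 :=
    Computable₂.mk (cite (clt (cmul (Computable.const 2) (cpw (hh_comp k1)))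
      (avoid_comp hp hq k1 (Computable.snd.comp s1) t1))
      ((cadd (Computable.fst.comp s1) (Computable.const 1)).pair (hF.comp (k1.pair t1))) s1)
  exact (Computable.nat_rec Computable.snd ((Computable.const 0).pair
    (hF.comp (Computable.fst.pair (Computable.const 0)))) h1).of_eq fun a => rfl

theorem state_mono (F : ℕ × ℕ → ℕ) (k : ℕ) : Monotone fun t => (state p q F k t).1 := by
  apply monotone_nat_of_le_succ
  intro t
  rw [state_succ]
  cases decide (2 * 2 ^ hh k < avoid p q k (state p q F k t).2 (t + 1)) <;> simp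

theorem state_eq_of_le (F : ℕ × ℕ → ℕ) (k : ℕ) {t t' : ℕ} (h : t ≤ t')
    (he : (state p q F k t).1 = (state p q F k t').1) : state p q F k t' = state p q F k t := by
  induction t', h using Nat.le_induction with
  | base => rfl
  | succ t' h ih =>
    have h1 := state_mono (p := p) (q := q) F k h
    rw [state_succ] at he ⊢
    cases hd : decide (2 * 2 ^ hh k < avoid p q k (state p q F k t').2 (t' + 1))
    · rw [hd] at he; exact ih he
    · rw [hd] at he; simp at he h1; omega

theorem state_eq (F : ℕ × ℕ → ℕ) (k : ℕ) {t t' : ℕ}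
    (he : (state p q F k t).1 = (state p q F k t').1) : state p q F k t' = state p q F k t := by
  rcases le_total t t' with h | h
  · exact state_eq_of_le F k h he
  · exact (state_eq_of_le F k h he.symm).symm

open Classical in
theorem process {M : List Bool → ℝ} (hM : IsSemimeasure M) (hL : LeftCE M) :
    ∃ S : ℕ → ℕ → ℕ × ℕ, Computable₂ S ∧ (∀ k t t', (S k t).1 = (S k t').1 → S k t' = S k t) ∧
      ∀ k, 1 ≤ k → ∃ t, (S k t).1 < 2 ^ (k + 1) ∧
        ∑ σ ∈ (allS (hh k)).filter (fun σ => ¬ Hit k σ (dec (S k t).2)), M σ ≤ 3 * (1 / 2) ^ k := by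
  obtain ⟨p, q, hp, hq, hpq⟩ := hL
  have hle : ∀ σ t, (p σ t : ℝ) / (q σ t + 1) ≤ M σ := fun σ t =>
    (hpq σ).1.ge_of_tendsto (hpq σ).2 t
  have hwm : ∀ k σ t, wt p q k σ t ≤ wt p q k σ (t + 1) := by
    intro k σ t
    rw [wt_eq, wt_eq]
    exact Nat.floor_le_floor (mul_le_mul_of_nonneg_left ((hpq σ).1 (Nat.le_succ t)) (by positivity))
  have htot : ∀ k t, ∑ σ ∈ allS (hh k), (wt p q k σ t : ℝ) ≤ 2 ^ (hh k + k) := by
    intro k t
    have : ∀ σ ∈ allS (hh k), (wt p q k σ t : ℝ) ≤ 2 ^ (hh k + k) * M σ := by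
      intro σ _
      rw [wt_eq]
      exact (Nat.floor_le (by positivity)).trans (mul_le_mul_of_nonneg_left (hle σ t) (by positivity))
    refine (sum_le_sum this).trans ?_
    rw [← mul_sum]
    exact mul_le_of_le_one_right (by positivity) (sum_semi hM _)
  have hex : ∀ x : ℕ × ℕ, ∃ n, decide (avoid p q x.1 n x.2 ≤ 2 ^ hh x.1) = true := by
    rintro ⟨k, t⟩
    obtain ⟨A, hA⟩ := cover k (fun σ => (wt p q k σ t : ℝ)) (fun _ => by positivity)
    refine ⟨Encodable.encode A, ?_⟩
    rw [decide_eq_true_eq, avoid_eq]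
    have e : dec (Encodable.encode A) = A := by simp [dec]
    rw [e]
    have h1 : (1 / 2 : ℝ) ^ k * 2 ^ (hh k + k) = 2 ^ hh k := by
      rw [pow_add, mul_comm, mul_assoc, ← mul_pow]; simp
    have h2 := hA.trans (mul_le_mul_of_nonneg_left (htot k t) (by positivity))
    rw [h1] at h2
    exact_mod_cast h2
  obtain ⟨F, hF, hFs⟩ := search (q := fun (x : ℕ × ℕ) n => decide (avoid p q x.1 n x.2 ≤ 2 ^ hh x.1))
    (Computable₂.mk (cle (avoid_comp hp hq (Computable.fst.comp Computable.fst) Computable.snd
      (Computable.snd.comp Computable.fst)) (cpw (hh_comp (Computable.fst.comp Computable.fst))))) hex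
  simp only [decide_eq_true_eq] at hFs
  refine ⟨state p q F, state_comp0 hp hq hF, fun k t t' => state_eq F k, fun k hk => ?_⟩
  set tot : ℕ → ℕ := fun t => ∑ σ ∈ allS (hh k), wt p q k σ t with htot'
  have hinc : ∀ n t, tot t + avoid p q k n (t + 1) ≤ tot (t + 1) + avoid p q k n t := by
    intro n t
    rw [avoid_eq, avoid_eq]
    simp only [htot']
    rw [← sum_filter_add_sum_filter_not (allS (hh k)) (fun σ => Hit k σ (dec n)),
      ← sum_filter_add_sum_filter_not (allS (hh k)) (fun σ => Hit k σ (dec n))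
        (fun σ => wt p q k σ (t + 1))]
    have := sum_le_sum (s := (allS (hh k)).filter (fun σ => Hit k σ (dec n)))
      (fun σ _ => hwm k σ t)
    omega
  have hinv : ∀ t, (state p q F k t).1 * 2 ^ hh k + avoid p q k (state p q F k t).2 t ≤
      tot t + 2 ^ hh k ∧ avoid p q k (state p q F k t).2 t ≤ 2 * 2 ^ hh k := by
    intro t
    induction t with
    | zero =>
      have := hFs (k, 0)
      show 0 * _ + avoid p q k (F (k, 0)) 0 ≤ _ ∧ avoid p q k (F (k, 0)) 0 ≤ _
      simp only at this
      omega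
    | succ t ih =>
      rw [state_succ]
      have h1 := hinc (state p q F k t).2 t
      have h2 := hFs (k, t + 1)
      cases hd : decide (2 * 2 ^ hh k < avoid p q k (state p q F k t).2 (t + 1))
      · simp only [decide_eq_false_iff_not, not_lt] at hd
        simp only [cond_false]
        omega
      · simp only [decide_eq_true_eq] at hd
        simp only [cond_true, add_mul, one_mul] at h2 ⊢
        omega
  have hbd : ∀ t, (state p q F k t).1 ≤ 2 ^ k + 1 := by
    intro t
    have h1 : tot t ≤ 2 ^ (hh k + k) := by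
      have := htot k t
      simp only [htot']
      exact_mod_cast this
    have h2 : (state p q F k t).1 * 2 ^ hh k ≤ (2 ^ k + 1) * 2 ^ hh k := by
      have := (hinv t).1
      rw [pow_add, mul_comm] at h1
      rw [add_mul, one_mul]
      omega
    exact Nat.le_of_mul_le_mul_right h2 (by positivity)
  obtain ⟨t0, ht0⟩ : ∃ t0, ∀ t, (state p q F k t).1 ≤ (state p q F k t0).1 := by
    have hb : BddAbove (Set.range fun t => (state p q F k t).1) := ⟨_, by
      rintro _ ⟨t, rfl⟩; exact hbd t⟩
    obtain ⟨t0, ht0⟩ := Nat.sSup_mem (Set.range_nonempty _) hb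
    exact ⟨t0, fun t => by
      have := le_csSup hb ⟨t, rfl⟩
      simp only at ht0 this
      omega⟩
  refine ⟨t0, ?_, ?_⟩
  · have := hbd t0
    have h2 : 2 ^ 1 ≤ 2 ^ k := Nat.pow_le_pow_right (by norm_num) hk
    rw [pow_succ]; omega
  · set B := (allS (hh k)).filter (fun σ => ¬ Hit k σ (dec (state p q F k t0).2)) with hB
    have hlim : Tendsto (fun t => ∑ σ ∈ B, (p σ t : ℝ) / (q σ t + 1)) atTop (𝓝 (∑ σ ∈ B, M σ)) :=
      tendsto_finsetSum _ fun σ _ => (hpq σ).2
    refine le_of_tendsto hlim ?_
    filter_upwards [eventually_ge_atTop t0] with t ht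
    have e : state p q F k t = state p q F k t0 :=
      state_eq F k (le_antisymm (state_mono F k ht) (ht0 t))
    have h1 := (hinv t).2
    rw [e, avoid_eq, ← hB] at h1
    have h2 : ∑ σ ∈ B, (wt p q k σ t : ℝ) ≤ 2 * 2 ^ hh k := by exact_mod_cast h1
    have h3 : ∀ σ ∈ B, (2 : ℝ) ^ (hh k + k) * ((p σ t : ℝ) / (q σ t + 1)) ≤ wt p q k σ t + 1 := by
      intro σ _
      rw [wt_eq]
      exact (Nat.lt_floor_add_one _).le
    have h4 := sum_le_sum h3
    rw [← mul_sum, sum_add_distrib, sum_const, nsmul_eq_mul, mul_one] at h4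
    have h5 : (B.card : ℝ) ≤ 2 ^ hh k := by
      exact_mod_cast (card_filter_le _ _).trans (card_allS _)
    have h6 : (2 : ℝ) ^ (hh k + k) * (3 * (1 / 2) ^ k) = 3 * 2 ^ hh k := by
      rw [pow_add, mul_assoc, mul_left_comm (2 ^ k : ℝ), ← mul_pow]; simp [mul_comm]
    refine le_of_mul_le_mul_left (a := (2 : ℝ) ^ (hh k + k)) ?_ (by positivity)
    linarith

end Pool.Agent.H285Z.SC
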